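import Pool.Agent.H61.KU.TC

/-!
# Module S1: the faces of rank 5 which contain `T` have one more vertex
-/

open Set

namespace Pool.Agent.H58.KU

open Pool.Agent.H61.KU

theorem pf_s1 (hF : T_FAC) (hR : T_ROT) : T_S1 := by
  intro ι W _ _ _ _ _ v E h9 hFam T F hET hFF hrk hTF
  obtain ⟨funiv, -, -, f4, f5, f6, -⟩ := hF ι W v
  have hconf := hFam.conf
  -- a face of `F` disjoint from `T` has at most one element
  have claim : ∀ R, IsFace v R → R ⊆ F → Disjoint R T → ∀ x ∈ R, ∀ y ∈ R, x = y := by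
    intro R hRf hRF hRT x hx y hy
    by_contra hxy
    obtain ⟨R1, hR1, hRR1, -, hint, hsup⟩ := hR ι W v Finset.univ F R funiv hFF hRf
      (Finset.subset_univ _) (Finset.subset_univ _)
    rw [hconf.span] at hsup
    have e1 := Submodule.finrank_sup_add_finrank_inf_eq (sp v R1) (sp v F)
    rw [hsup, finrank_top, h9] at e1
    have e2 : rk v R ≤ Module.finrank ℝ ↥(sp v R1 ⊓ sp v F) :=
      Submodule.finrank_mono (le_inf (f6 R R1 hRR1).1 (f6 R F hRF).1)
    have e3 : rk v ∅ < rk v {x} := f5 ∅ {x} hconf.empty (by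
      rw [Finset.ssubset_iff_subset_ne]
      exact ⟨Finset.empty_subset _, (Finset.singleton_ne_empty x).symm⟩)
    have e4 : rk v {x} < rk v R := f5 {x} R (hconf.single x) (by
      rw [Finset.ssubset_iff_subset_ne]
      refine ⟨Finset.singleton_subset_iff.2 hx, fun h => hxy ?_⟩
      rw [← h, Finset.mem_singleton] at hy
      exact hy.symm)
    have e5 : rk v R1 = Module.finrank ℝ (sp v R1) := rfl
    have e6 : rk v F = Module.finrank ℝ (sp v F) := rfl
    have e7 : 6 ≤ rk v R1 := by omega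
    obtain ⟨T1, hT1, hT1R⟩ := hFam.f1 R1 hR1 e7
    refine hFam.f2 T1 T hT1 hET ?_
    rw [Finset.disjoint_left]
    intro i hi1 hi2
    have hi3 : i ∈ R1 ∩ F := Finset.mem_inter.2 ⟨hT1R hi1, hTF hi2⟩
    rw [hint] at hi3
    exact Finset.disjoint_left.1 hRT (Finset.mem_inter.1 hi3).1 hi2
  have hne : F ≠ T := by
    intro h
    have := (hFam.face T hET).2
    rw [← h] at this
    omega
  obtain ⟨x, hxF, hxT⟩ : ∃ x ∈ F, x ∉ T := by
    by_contra hcon
    push Not at hcon
    exact hne (Finset.Subset.antisymm hcon hTF)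
  refine ⟨x, hxT, ?_⟩
  by_contra hcon
  obtain ⟨y, hyF, hyT, hyx⟩ : ∃ y ∈ F, y ∉ T ∧ y ≠ x := by
    by_contra hcon2
    push Not at hcon2
    apply hcon
    ext i
    rw [Finset.mem_insert]
    constructor
    · intro hi
      by_cases h : i ∈ T
      · exact Or.inr h
      · exact Or.inl (hcon2 i hi h)
    · rintro (rfl | hi)
      · exact hxF
      · exact hTF hi
  obtain ⟨lx, hlx0, hlx⟩ := hconf.single x
  obtain ⟨ly, hly0, hly⟩ := hconf.single y
  obtain ⟨f, hf0, hf⟩ := (hFam.face T hET).1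
  have hlxp : ∀ i, i ≠ x → 0 < lx (v i) := fun i hi =>
    lt_of_le_of_ne (hlx0 i) fun h => hi (Finset.mem_singleton.1 ((hlx i).1 h.symm))
  have hlyp : ∀ i, i ≠ y → 0 < ly (v i) := fun i hi =>
    lt_of_le_of_ne (hly0 i) fun h => hi (Finset.mem_singleton.1 ((hly i).1 h.symm))
  have hfp : ∀ i, i ∉ T → 0 < f (v i) := fun i hi =>
    lt_of_le_of_ne (hf0 i) fun h => hi ((hf i).1 h.symm)
  have hlxx : lx (v x) = 0 := (hlx x).2 (Finset.mem_singleton_self x)
  have hlyy : ly (v y) = 0 := (hly y).2 (Finset.mem_singleton_self y)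
  -- the functions `g i`
  set g : ι → ℝ → ℝ := fun i t => -((1 - t) * lx (v i) + t * ly (v i)) / f (v i) with hg
  set D : Finset ι := (F \ T).erase x with hD
  have hyD : y ∈ D := Finset.mem_erase.2 ⟨hyx, Finset.mem_sdiff.2 ⟨hyF, hyT⟩⟩
  have hDne : D.Nonempty := ⟨y, hyD⟩
  have hcont : ∀ i, Continuous (g i) := by
    intro i
    rw [hg]
    fun_prop
  set hh : ℝ → ℝ := fun t => D.sup' hDne (fun i => g i t) - g x t with hhh
  have hhc : Continuous hh := by
    rw [hhh]
    exact (Continuous.finset_sup'_apply hDne fun i _ => hcont i).sub (hcont x)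
  have h0 : hh 0 < 0 := by
    have e1 : g x 0 = 0 := by
      simp only [hg, hlxx]
      simp
    have e2 : D.sup' hDne (fun i => g i 0) < 0 := by
      rw [Finset.sup'_lt_iff]
      intro i hi
      have hix := (Finset.mem_erase.1 hi).1
      have hiT := (Finset.mem_sdiff.1 (Finset.mem_erase.1 hi).2).2
      have h1 : g i 0 = -(lx (v i) / f (v i)) := by
        simp only [hg]
        ring
      rw [h1]
      have := div_pos (hlxp i hix) (hfp i hiT)
      linarith
    simp only [hhh]
    rw [e1]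
    linarith
  have h1 : 0 < hh 1 := by
    have e1 : g x 1 < 0 := by
      have h1 : g x 1 = -(ly (v x) / f (v x)) := by
        simp only [hg]
        ring
      rw [h1]
      have := div_pos (hlyp x hyx.symm) (hfp x hxT)
      linarith
    have e2 : 0 ≤ D.sup' hDne (fun i => g i 1) := by
      have e3 : g y 1 = 0 := by
        simp only [hg, hlyy]
        simp
      have e4 := Finset.le_sup' (fun i => g i 1) hyD
      rw [e3] at e4
      exact e4
    simp only [hhh]
    linarith
  obtain ⟨t, ht, hht⟩ := intermediate_value_Icc (zero_le_one) hhc.continuousOn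
    (show (0 : ℝ) ∈ Icc (hh 0) (hh 1) from ⟨h0.le, h1.le⟩)
  obtain ⟨z, hzD, hz⟩ := Finset.exists_mem_eq_sup' hDne (fun i => g i t)
  have hzx := (Finset.mem_erase.1 hzD).1
  have hzF := (Finset.mem_sdiff.1 (Finset.mem_erase.1 hzD).2).1
  have hzT := (Finset.mem_sdiff.1 (Finset.mem_erase.1 hzD).2).2
  have hzg : g z t = g x t := by
    simp only [hhh] at hht
    linarith
  have hle : ∀ i ∈ F, i ∉ T → g i t ≤ g x t := by
    intro i hiF hiT
    by_cases hix : i = x
    · rw [hix]
    · have h2 := Finset.le_sup' (fun i => g i t)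
        (show i ∈ D from Finset.mem_erase.2 ⟨hix, Finset.mem_sdiff.2 ⟨hiF, hiT⟩⟩)
      simp only [hhh] at hht
      linarith
  set l : W →ₗ[ℝ] ℝ := (1 - t) • lx + t • ly + (g x t) • f with hl
  have hlv : ∀ i, l (v i) = (1 - t) * lx (v i) + t * ly (v i) + g x t * f (v i) := by
    intro i
    simp [hl]
  have hlD : ∀ i, i ∉ T → l (v i) = f (v i) * (g x t - g i t) := by
    intro i hiT
    rw [hlv]
    have h2 := hfp i hiT
    simp only [hg]
    field_simp
    ring
  have hlT : ∀ i ∈ T, 0 < l (v i) := by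
    intro i hiT
    have hix : i ≠ x := fun h => hxT (h ▸ hiT)
    have hiy : i ≠ y := fun h => hyT (h ▸ hiT)
    rw [hlv, (hf i).2 hiT, mul_zero, add_zero]
    have a1 := hlxp i hix
    have a2 := hlyp i hiy
    have a3 := ht.1
    have a4 := ht.2
    rcases eq_or_lt_of_le a3 with h | h
    · rw [← h]
      linarith
    · have a5 : 0 < t * ly (v i) := mul_pos h a2
      have a6 : 0 ≤ (1 - t) * lx (v i) := mul_nonneg (by linarith) a1.le
      linarith
  have hlF : ∀ i ∈ F, 0 ≤ l (v i) := by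
    intro i hiF
    by_cases hiT : i ∈ T
    · exact (hlT i hiT).le
    · rw [hlD i hiT]
      exact mul_nonneg (hf0 i) (by linarith [hle i hiF hiT])
  obtain ⟨G, hG, hGm⟩ := f4 F hFF l hlF
  have hGF : G ⊆ F := fun i hi => ((hGm i).1 hi).1
  have hGT : Disjoint G T := by
    rw [Finset.disjoint_left]
    intro i hiG hiT
    have := ((hGm i).1 hiG).2
    have := hlT i hiT
    linarith
  have hxG : x ∈ G := (hGm x).2 ⟨hxF, by rw [hlD x hxT, sub_self, mul_zero]⟩
  have hzG : z ∈ G := (hGm z).2 ⟨hzF, by rw [hlD z hzT, hzg, sub_self, mul_zero]⟩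
  exact hzx (claim G hG hGF hGT z hzG x hxG)

end Pool.Agent.H58.KU
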