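import Pool.Agent.H61.KU.TA

/-!
# Module SEP: the image of the 3-sphere separates the 4-sphere
-/

open Topology Set
open Pool.Agent.H59 Pool.Agent.H64.LB

namespace Pool.Agent.H58.KU

open Pool.Agent.H61.KU

/-- the subspheres of `Sphere4` -/
def SS (k : ℕ) : Set (Fin 4 → ℝ) := {x | x ∈ Sphere4 ∧ ∀ j : Fin 4, k < j.val → x j = 0}

/-- the hemispheres of `SS k` -/
def DD (k : ℕ) (hk : k < 4) (σ : ℝ) : Set (Fin 4 → ℝ) := {x | x ∈ SS k ∧ 0 ≤ σ * x ⟨k, hk⟩}

/-- the unit ball -/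
def CC (k : ℕ) : Set (Fin k → ℝ) := {y | ∑ i, y i ^ 2 ≤ 1}

theorem cc_bound {k : ℕ} {y : Fin k → ℝ} (hy : ∑ i, y i ^ 2 ≤ 1) (i : Fin k) : |y i| ≤ 1 := by
  have h1 : y i ^ 2 ≤ ∑ j, y j ^ 2 :=
    Finset.single_le_sum (f := fun j => y j ^ 2) (fun j _ => sq_nonneg (y j)) (Finset.mem_univ i)
  have h2 : y i ^ 2 ≤ 1 := h1.trans hy
  exact (sq_le_one_iff_abs_le_one _).1 h2

theorem cc_compact (k : ℕ) : IsCompact (CC k) := by
  have hcl : IsClosed (CC k) := isClosed_le (by fun_prop) continuous_const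
  refine (isCompact_Icc (a := (fun _ : Fin k => (-1 : ℝ)))
    (b := fun _ => (1 : ℝ))).of_isClosed_subset hcl ?_
  intro y hy
  exact ⟨fun i => (abs_le.1 (cc_bound hy i)).1, fun i => (abs_le.1 (cc_bound hy i)).2⟩

theorem cc_convex (k : ℕ) : Convex ℝ (CC k) := by
  intro x hx y hy a b ha hb hab
  have h : ∀ i, (a * x i + b * y i) ^ 2 ≤ a * x i ^ 2 + b * y i ^ 2 := by
    intro i
    have hb' : b = 1 - a := by linarith
    have h1 : 0 ≤ a * b * (x i - y i) ^ 2 := mul_nonneg (mul_nonneg ha hb) (sq_nonneg _)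
    subst hb'
    nlinarith [h1]
  change ∑ i, (a • x + b • y) i ^ 2 ≤ 1
  calc ∑ i, (a • x + b • y) i ^ 2 ≤ ∑ i, (a * x i ^ 2 + b * y i ^ 2) :=
        Finset.sum_le_sum fun i _ => by
          simpa [Pi.add_apply, Pi.smul_apply, smul_eq_mul] using h i
    _ = a * ∑ i, x i ^ 2 + b * ∑ i, y i ^ 2 := by
        rw [Finset.sum_add_distrib, Finset.mul_sum, Finset.mul_sum]
    _ ≤ a * 1 + b * 1 :=
        add_le_add (mul_le_mul_of_nonneg_left hx ha) (mul_le_mul_of_nonneg_left hy hb)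
    _ = 1 := by linarith

theorem sphere4_compact : IsCompact Sphere4 := by
  have hcl : IsClosed Sphere4 := isClosed_eq (by fun_prop) continuous_const
  refine (cc_compact 4).of_isClosed_subset hcl ?_
  intro y hy
  exact le_of_eq hy

theorem ss_closed (k : ℕ) : IsClosed (SS k) := by
  have : SS k = Sphere4 ∩ ⋂ j : Fin 4, {x | k < j.val → x j = 0} := by
    ext x
    simp [SS]
  rw [this]
  refine sphere4_compact.isClosed.inter (isClosed_iInter fun j => ?_)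
  by_cases h : k < j.val
  · simp only [h, true_imp_iff]
    exact isClosed_eq (continuous_apply j) continuous_const
  · simp only [h, false_imp_iff]
    exact isClosed_univ

theorem dd_compact (k : ℕ) (hk : k < 4) (σ : ℝ) : IsCompact (DD k hk σ) := by
  refine sphere4_compact.of_isClosed_subset ?_ fun x hx => hx.1.1
  have hcl : IsClosed {x : Fin 4 → ℝ | 0 ≤ σ * x ⟨k, hk⟩} :=
    isClosed_le continuous_const (by fun_prop)
  exact (ss_closed k).inter hcl

/-- the parametrization of the hemispheres -/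
noncomputable def ph (k : ℕ) (σ : ℝ) (y : Fin k → ℝ) : Fin 4 → ℝ := fun j =>
  if h : j.val < k then y ⟨j.val, h⟩ else
    if j.val = k then σ * Real.sqrt (1 - ∑ i, y i ^ 2) else 0

theorem ph_cont (k : ℕ) (σ : ℝ) : Continuous (ph k σ) := by
  refine continuous_pi fun j => ?_
  unfold ph
  by_cases h : j.val < k
  · simp only [h, dif_pos]
    exact continuous_apply _
  · simp only [h, dif_neg, not_false_eq_true]
    by_cases h' : j.val = k
    · simp only [h', if_true]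
      fun_prop
    · simp only [h', if_false]
      exact continuous_const

theorem sum_split (k : ℕ) (hk : k < 4) (x : Fin 4 → ℝ) (h0 : ∀ j : Fin 4, k < j.val → x j = 0) :
    ∑ j, x j ^ 2 = ∑ i : Fin k, x ⟨i.val, i.isLt.trans hk⟩ ^ 2 + x ⟨k, hk⟩ ^ 2 := by
  have e : ∀ f : Fin 4 → ℝ, ∑ j, f j = f 0 + f 1 + f 2 + f 3 := fun f => Fin.sum_univ_four f
  rw [e]
  interval_cases k
  · have h1 := h0 1 (by decide)
    have h2 := h0 2 (by decide)
    have h3 := h0 3 (by decide)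
    simp [h1, h2, h3]
  · have h2 := h0 2 (by decide)
    have h3 := h0 3 (by decide)
    simp [h2, h3]
  · have h3 := h0 3 (by decide)
    simp [h3, Fin.sum_univ_two]
  · simp [Fin.sum_univ_three]

theorem ph_lt {k : ℕ} (σ : ℝ) (y : Fin k → ℝ) (i : Fin k) (h : i.val < 4) :
    ph k σ y ⟨i.val, h⟩ = y i := by
  simp [ph, i.isLt]

theorem ph_eq {k : ℕ} (hk : k < 4) (σ : ℝ) (y : Fin k → ℝ) :
    ph k σ y ⟨k, hk⟩ = σ * Real.sqrt (1 - ∑ i, y i ^ 2) := by
  simp [ph]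

theorem ph_gt {k : ℕ} (σ : ℝ) (y : Fin k → ℝ) (j : Fin 4) (h : k < j.val) :
    ph k σ y j = 0 := by
  simp [ph, not_lt.2 h.le, h.ne']

theorem ph_mem {k : ℕ} (hk : k < 4) {σ : ℝ} (hσ : σ * σ = 1) {y : Fin k → ℝ}
    (hy : y ∈ CC k) : ph k σ y ∈ DD k hk σ := by
  have hy' : 0 ≤ 1 - ∑ i, y i ^ 2 := sub_nonneg.2 hy
  refine ⟨⟨?_, fun j hj => ph_gt σ y j hj⟩, ?_⟩
  · change ∑ j, ph k σ y j ^ 2 = 1
    rw [sum_split k hk _ fun j hj => ph_gt σ y j hj, ph_eq hk]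
    simp only [ph_lt]
    rw [mul_pow, Real.sq_sqrt hy']
    have : σ ^ 2 = 1 := by rw [sq, hσ]
    rw [this]
    ring
  · rw [ph_eq hk, ← mul_assoc, hσ, one_mul]
    exact Real.sqrt_nonneg _

theorem ph_inj {k : ℕ} (hk : k < 4) (σ : ℝ) : Function.Injective (ph k σ) := by
  intro y z h
  funext i
  have := congrFun h ⟨i.val, i.isLt.trans hk⟩
  rwa [ph_lt, ph_lt] at this

theorem ph_image {k : ℕ} (hk : k < 4) {σ : ℝ} (hσ : σ * σ = 1) :
    ph k σ '' CC k = DD k hk σ := by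
  apply Subset.antisymm
  · rintro x ⟨y, hy, rfl⟩
    exact ph_mem hk hσ hy
  · rintro x ⟨⟨hx1, hx2⟩, hx3⟩
    have hs := sum_split k hk x hx2
    have hx1' : ∑ j, x j ^ 2 = 1 := hx1
    rw [hx1'] at hs
    refine ⟨fun i => x ⟨i.val, i.isLt.trans hk⟩, ?_, ?_⟩
    · change ∑ i : Fin k, x ⟨i.val, i.isLt.trans hk⟩ ^ 2 ≤ 1
      nlinarith [sq_nonneg (x ⟨k, hk⟩)]
    · funext j
      rcases lt_trichotomy j.val k with h | h | h
      · have := ph_lt σ (fun i : Fin k => x ⟨i.val, i.isLt.trans hk⟩) ⟨j.val, h⟩ j.isLt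
        exact this
      · subst h
        have h2 := ph_eq hk σ (fun i : Fin j.val => x ⟨i.val, i.isLt.trans hk⟩)
        have h3 : (1 : ℝ) - ∑ i : Fin j.val, x ⟨i.val, i.isLt.trans hk⟩ ^ 2
            = (σ * x ⟨j.val, hk⟩) ^ 2 := by
          have : σ ^ 2 = 1 := by rw [sq, hσ]
          rw [mul_pow, this]
          linarith
        rw [h3, Real.sqrt_sq hx3, ← mul_assoc, hσ, one_mul] at h2
        exact h2
      · rw [ph_gt σ _ j h, hx2 j h]

theorem dd_union (k : ℕ) (hk : k < 4) : DD k hk 1 ∪ DD k hk (-1) = SS k := by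
  ext x
  constructor
  · rintro (h | h) <;> exact h.1
  · intro h
    rcases le_total 0 (x ⟨k, hk⟩) with h1 | h1
    · exact Or.inl ⟨h, by linarith⟩
    · exact Or.inr ⟨h, by linarith⟩

theorem dd_inter (k : ℕ) (hk : k + 1 < 4) :
    DD (k + 1) hk 1 ∩ DD (k + 1) hk (-1) = SS k := by
  ext x
  constructor
  · rintro ⟨⟨⟨h1, h2⟩, h3⟩, -, h4⟩
    refine ⟨h1, fun j hj => ?_⟩
    rcases Nat.lt_or_ge (k + 1) j.val with h | h
    · exact h2 j h
    · have : j = ⟨k + 1, hk⟩ := Fin.ext (by simp; omega)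
      rw [this]
      linarith
  · rintro ⟨h1, h2⟩
    have h3 : x ⟨k + 1, hk⟩ = 0 := h2 _ (by simp)
    refine ⟨⟨⟨h1, fun j hj => h2 j (by omega)⟩, by rw [h3]; simp⟩,
      ⟨h1, fun j hj => h2 j (by omega)⟩, by rw [h3]; simp⟩

theorem ss_three : SS 3 = Sphere4 := by
  ext x
  constructor
  · exact fun h => h.1
  · exact fun h => ⟨h, fun j hj => absurd j.isLt (by omega)⟩

theorem ss_zero : SS 0 = {Pi.single 0 1, Pi.single 0 (-1)} := by
  ext x
  simp only [mem_insert_iff, mem_singleton_iff]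
  constructor
  · rintro ⟨h1, h2⟩
    have h3 := sum_split 0 (by norm_num) x h2
    have h1' : ∑ j, x j ^ 2 = 1 := h1
    rw [h1'] at h3
    have h4 : x 0 ^ 2 = 1 := by
      simpa using h3.symm
    have h5 : ∀ c : ℝ, x 0 = c → x = Pi.single 0 c := by
      intro c hc
      funext j
      by_cases hj : j = 0
      · subst hj
        rw [Pi.single_eq_same, hc]
      · rw [Pi.single_eq_of_ne hj]
        exact h2 j (Nat.pos_of_ne_zero fun h => hj (Fin.ext h))
    rcases (show x 0 = 1 ∨ x 0 = -1 by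
      have h7 : (x 0 - 1) * (x 0 + 1) = 0 := by nlinarith
      rcases mul_eq_zero.1 h7 with h8 | h8
      · exact Or.inl (by linarith)
      · exact Or.inr (by linarith)) with h | h
    · exact Or.inl (h5 1 h)
    · exact Or.inr (h5 (-1) h)
  · have h6 : ∀ c : ℝ, c ^ 2 = 1 → (Pi.single 0 c : Fin 4 → ℝ) ∈ SS 0 := by
      intro c hc
      refine ⟨?_, fun j hj => ?_⟩
      · change ∑ j, (Pi.single 0 c : Fin 4 → ℝ) j ^ 2 = 1
        rw [Fin.sum_univ_four]
        simp [hc]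
      · have hj0 : j ≠ 0 := by
          rintro rfl
          exact lt_irrefl _ hj
        simp [Pi.single_apply, hj0]
    rintro (rfl | rfl)
    · exact h6 1 (by norm_num)
    · exact h6 (-1) (by norm_num)

/-- the Mayer-Vietoris step -/
theorem mvs {Y : Type} [TopologicalSpace Y] (M : MVSub (ZMod 2)) {U V W T : Set Y}
    (hW : U ∩ V = W) (hT : U ∪ V = T) (hUo : IsOpen U) (hVo : IsOpen V) (q : ℕ)
    (hU : Subsingleton (HH (ZMod 2) (q + 1) U)) (hV : Subsingleton (HH (ZMod 2) (q + 1) V))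
    (hN : Nontrivial (HH (ZMod 2) (q + 1) T)) :
    ∃ w : HH (ZMod 2) q W, w ≠ 0 ∧ ∃ h : W ⊆ U, HH.map (ZMod 2) q (incS h) w = 0 := by
  subst hW hT
  obtain ⟨z, hz⟩ := exists_ne (0 : HH (ZMod 2) (q + 1) ↥(U ∪ V))
  refine ⟨M.δ Y U V q z, ?_, inter_subset_left, ?_⟩
  · intro h
    obtain ⟨a, b, hab⟩ := (M.exact_union Y U V hUo hVo q z).2 h
    apply hz
    rw [hab, Subsingleton.elim a 0, Subsingleton.elim b 0, map_zero, map_zero, add_zero]
  · exact ((M.exact_inter Y U V hUo hVo q _).2 ⟨z, rfl⟩).1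

theorem sep_final (hH : T_H0) [LocallyPathConnectedSpace S4] {K : Set S4} (hKo : IsOpen K)
    (hpre : IsPreconnected K) (w : HH (ZMod 2) 0 K) (hw : w ≠ 0) (U : Set S4) (hU : K ⊆ U)
    (hw0 : HH.map (ZMod 2) 0 (incS hU) w = 0) : False := by
  have hKn : K.Nonempty := by
    rw [nonempty_iff_ne_empty]
    intro hKe
    haveI hE : IsEmpty ↥K := isEmpty_coe_sort.2 hKe
    apply hw
    induction w using HH.ind with
    | h x =>
      have hx : x = 0 := by
        apply Subtype.ext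
        apply Finsupp.ext
        intro s
        exact (hE.false (s ⟨Pi.single 0 1, single_mem_stdSimplex ℝ 0⟩)).elim
      rw [hx, map_zero]
  have hpath : IsPathConnected K := (hKo.isConnected_iff_isPathConnected).1 ⟨hKn, hpre⟩
  haveI : PathConnectedSpace ↥K := isPathConnected_iff_pathConnectedSpace.1 hpath
  obtain ⟨ε, -, hnat, hbij⟩ := hH (ZMod 2)
  apply hw
  apply (hbij ↥K).1
  rw [map_zero, ← hnat _ _ (incS hU) w, hw0, map_zero]

theorem pf_sep (hM : T_MVS) (hH : T_H0) (hC : T_CEL) (h4 : T_S4A) : T_SEP := by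
  intro h hc hi hpre
  obtain ⟨M⟩ := hM (ZMod 2)
  obtain ⟨hpc, hS, hPt, h2, -, hlpc⟩ := h4
  haveI := hpc
  haveI := hlpc
  have hsub : ∀ (k : ℕ) (hk : k < 4) (σ : ℝ), DD k hk σ ⊆ Sphere4 := fun k hk σ x hx => hx.1.1
  have hD : ∀ (k : ℕ) (hk : k < 4) (σ : ℝ), σ * σ = 1 → CellLike S4 (h '' DD k hk σ) := by
    intro k hk σ hσ
    have hm : MapsTo (ph k σ) (CC k) Sphere4 := fun y hy => hsub k hk σ (ph_mem hk hσ hy)
    have := hC S4 hPt k (CC k) (h ∘ ph k σ) (cc_compact k) (cc_convex k)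
      ⟨0, by simp [CC]⟩ (hc.comp (ph_cont k σ).continuousOn hm)
      (hi.comp (ph_inj hk σ).injOn hm)
    rwa [image_comp, ph_image hk hσ] at this
  have hDc : ∀ (k : ℕ) (hk : k < 4) (σ : ℝ), IsClosed (h '' DD k hk σ) := fun k hk σ =>
    ((dd_compact k hk σ).image_of_continuousOn (hc.mono (hsub k hk σ))).isClosed
  have hDs : ∀ (k : ℕ) (hk : k < 4) (σ : ℝ), σ * σ = 1 → ∀ q, q + 1 ≤ 3 →
      Subsingleton (HH (ZMod 2) (q + 1) ↥((h '' DD k hk σ)ᶜ)) := by
    intro k hk σ hσ q hq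
    haveI := hS (q + 1) (by omega) hq
    exact ((hD k hk σ hσ).1 (q + 1) hq).1.subsingleton
  have hstep : ∀ (k q : ℕ), k + 1 < 4 → q + 1 ≤ 3 →
      Nontrivial (HH (ZMod 2) (q + 1) ↥((h '' SS k)ᶜ)) →
      ∃ w : HH (ZMod 2) q ↥((h '' SS (k + 1))ᶜ), w ≠ 0 ∧
        ∃ (U : Set S4) (hU : (h '' SS (k + 1))ᶜ ⊆ U), HH.map (ZMod 2) q (incS hU) w = 0 := by
    intro k q hk hq hN
    obtain ⟨w, hw, hWU, hw0⟩ := mvs M (U := (h '' DD (k + 1) hk 1)ᶜ)
      (V := (h '' DD (k + 1) hk (-1))ᶜ) (W := (h '' SS (k + 1))ᶜ) (T := (h '' SS k)ᶜ)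
      (by rw [← compl_union, ← image_union, dd_union])
      (by rw [← compl_inter, ← hi.image_inter (hsub _ _ _) (hsub _ _ _), dd_inter])
      (hDc _ _ _).isOpen_compl (hDc _ _ _).isOpen_compl q
      (hDs _ _ _ (by norm_num) q hq) (hDs _ _ _ (by norm_num) q hq) hN
    exact ⟨w, hw, _, hWU, hw0⟩
  have hnt : ∀ (k q : ℕ), k + 1 < 4 → q + 1 ≤ 3 →
      Nontrivial (HH (ZMod 2) (q + 1) ↥((h '' SS k)ᶜ)) →
      Nontrivial (HH (ZMod 2) q ↥((h '' SS (k + 1))ᶜ)) := by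
    intro k q hk hq hN
    obtain ⟨w, hw, -⟩ := hstep k q hk hq hN
    exact ⟨w, 0, hw⟩
  have h0 : Nontrivial (HH (ZMod 2) 3 ↥((h '' SS 0)ᶜ)) := by
    have hm1 : (Pi.single 0 1 : Fin 4 → ℝ) ∈ Sphere4 := by
      have : (Pi.single 0 1 : Fin 4 → ℝ) ∈ SS 0 := by rw [ss_zero]; simp
      exact this.1
    have hm2 : (Pi.single 0 (-1) : Fin 4 → ℝ) ∈ Sphere4 := by
      have : (Pi.single 0 (-1) : Fin 4 → ℝ) ∈ SS 0 := by rw [ss_zero]; simp
      exact this.1
    rw [ss_zero, image_pair]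
    refine h2 _ _ fun he => ?_
    have h3 := congrFun (hi hm1 hm2 he) 0
    rw [Pi.single_eq_same, Pi.single_eq_same] at h3
    norm_num at h3
  obtain ⟨w, hw, U, hU, hw0⟩ := hstep 2 0 (by norm_num) (by norm_num)
    (hnt 1 1 (by norm_num) (by norm_num) (hnt 0 2 (by norm_num) (by norm_num) h0))
  have e3 : (h '' SS (2 + 1))ᶜ = (h '' Sphere4)ᶜ := by
    rw [show (2 + 1 : ℕ) = 3 from rfl, ss_three]
  have hKo : IsOpen ((h '' SS (2 + 1))ᶜ) := by
    rw [e3]
    exact (sphere4_compact.image_of_continuousOn hc).isClosed.isOpen_compl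
  rw [← e3] at hpre
  exact sep_final hH hKo hpre w hw U hU hw0

end Pool.Agent.H58.KU
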