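import Pool.Agent.H61.KU.TA

/-!
# Module SLS: surjectivity for the complement of a set with cell-like slices
-/

open Topology Set
open Pool.Agent.H59 Pool.Agent.H64.LB

namespace Pool.Agent.H58.KU

open Pool.Agent.H61.KU

/-- push-forward to a larger subset does not change the image in the ambient space -/
theorem map_incS {Y : Type} [TopologicalSpace Y] {U V : Set Y} (h : U ⊆ V) (q : ℕ)
    (z : HH (ZMod 2) q U) :
    HH.map (ZMod 2) q (inc V) (HH.map (ZMod 2) q (incS h) z) = HH.map (ZMod 2) q (inc U) z := by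
  rw [← HH.map_comp]
  rfl

/-- the Mayer-Vietoris step -/
theorem mv_step {Y : Type} [TopologicalSpace Y] (M : MVSub (ZMod 2)) {U V W : Set Y}
    (hUo : IsOpen U) (hVo : IsOpen V) (q : ℕ)
    (hinj : Function.Injective (HH.map (ZMod 2) q (inc (U ∪ V)))) (hin : U ∩ V ⊆ W)
    (c : HH (ZMod 2) q Y) (u : HH (ZMod 2) q U) (v : HH (ZMod 2) q V)
    (hu : HH.map (ZMod 2) q (inc U) u = c) (hv : HH.map (ZMod 2) q (inc V) v = c) :
    ∃ z : HH (ZMod 2) q W, HH.map (ZMod 2) q (inc W) z = c := by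
  have h0 : HH.map (ZMod 2) q (incUL U V) u + HH.map (ZMod 2) q (incUR U V) (-v) = 0 := by
    apply hinj
    rw [map_add, map_neg, map_neg, map_zero]
    have e1 : HH.map (ZMod 2) q (inc (U ∪ V)) (HH.map (ZMod 2) q (incUL U V) u) = c := by
      rw [← hu]
      exact map_incS _ q u
    have e2 : HH.map (ZMod 2) q (inc (U ∪ V)) (HH.map (ZMod 2) q (incUR U V) v) = c := by
      rw [← hv]
      exact map_incS _ q v
    rw [e1, e2, add_neg_cancel]
  obtain ⟨w, hw, -⟩ := (M.exact_sum Y U V hUo hVo q u (-v)).1 h0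
  refine ⟨HH.map (ZMod 2) q (incS hin) w, ?_⟩
  rw [map_incS, ← hu, hw]
  exact (map_incS (inter_subset_left : U ∩ V ⊆ U) q w).symm

theorem pf_sls (hM : T_MVS) (hC : T_CS) (hQ : T_COU) : T_SLS := by
  intro Y _ _ A t a b hA ht hab hbd hsl q hq c
  have hAc : IsClosed A := hA.isClosed
  have hDc : ∀ x y, IsClosed (A ∩ t ⁻¹' (Icc x y)) := fun x y =>
    ht.preimage_isClosed_of_isClosed hAc isClosed_Icc
  have key : ∃ z : HH (ZMod 2) q ↥((A ∩ t ⁻¹' (Icc a b))ᶜ),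
      HH.map (ZMod 2) q (inc (A ∩ t ⁻¹' (Icc a b))ᶜ) z = c := by
    refine hQ (fun x y => ∃ z : HH (ZMod 2) q ↥((A ∩ t ⁻¹' (Icc x y))ᶜ),
      HH.map (ZMod 2) q (inc (A ∩ t ⁻¹' (Icc x y))ᶜ) z = c) a b hab ?_ ?_ ?_
    · rintro x x' y' y h1 - h3 ⟨z, hz⟩
      have hsub : (A ∩ t ⁻¹' (Icc x y))ᶜ ⊆ (A ∩ t ⁻¹' (Icc x' y'))ᶜ :=
        compl_subset_compl.2 (inter_subset_inter_right _ (preimage_mono (Icc_subset_Icc h1 h3)))
      exact ⟨HH.map (ZMod 2) q (incS hsub) z, by rw [map_incS, hz]⟩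
    · rintro x y z hxy hyz hy ⟨u, hu⟩ ⟨v, hv⟩
      obtain ⟨M⟩ := hM (ZMod 2)
      have hun : (A ∩ t ⁻¹' (Icc x y))ᶜ ∪ (A ∩ t ⁻¹' (Icc y z))ᶜ = {w | w ∈ A ∧ t w = y}ᶜ := by
        rw [← compl_inter]
        congr 1
        ext w
        simp only [mem_inter_iff, mem_preimage, mem_Icc, mem_ofPred_eq]
        constructor
        · rintro ⟨⟨h1, h2, h3⟩, -, h4, h5⟩
          exact ⟨h1, le_antisymm h3 h4⟩
        · rintro ⟨h1, h2⟩
          subst h2
          exact ⟨⟨h1, hxy, le_rfl⟩, h1, le_rfl, hyz⟩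
      have hin : (A ∩ t ⁻¹' (Icc x y))ᶜ ∩ (A ∩ t ⁻¹' (Icc y z))ᶜ ⊆ (A ∩ t ⁻¹' (Icc x z))ᶜ := by
        rintro w ⟨h1, h2⟩ ⟨h3, h4, h5⟩
        rcases le_total (t w) y with h6 | h6
        · exact h1 ⟨h3, h4, h6⟩
        · exact h2 ⟨h3, h6, h5⟩
      have hinj : Function.Injective (HH.map (ZMod 2) q
          (inc ((A ∩ t ⁻¹' (Icc x y))ᶜ ∪ (A ∩ t ⁻¹' (Icc y z))ᶜ))) := by
        rw [hun]
        exact ((hsl y hy).1 q hq).1
      exact mv_step M (hDc x y).isOpen_compl (hDc y z).isOpen_compl q hinj hin c u v hu hv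
    · intro c0 hc0
      obtain ⟨z, hz⟩ := ((hsl c0 hc0).1 q hq).2 c
      set F : Set (Set Y) := {U | ∃ e : ℝ, 0 < e ∧ U = (A ∩ t ⁻¹' (Icc (c0 - e) (c0 + e)))ᶜ} with hF
      have hFo : ∀ U ∈ F, IsOpen U := by
        rintro U ⟨e, -, rfl⟩
        exact (hDc _ _).isOpen_compl
      have hFn : F.Nonempty := ⟨_, 1, one_pos, rfl⟩
      have hFd : DirectedOn (· ⊆ ·) F := by
        rintro U ⟨e, he, rfl⟩ V ⟨e', he', rfl⟩
        refine ⟨_, ⟨min e e', lt_min he he', rfl⟩, ?_, ?_⟩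
        · exact compl_subset_compl.2 (inter_subset_inter_right _ (preimage_mono
            (Icc_subset_Icc (by linarith [min_le_left e e']) (by linarith [min_le_left e e']))))
        · exact compl_subset_compl.2 (inter_subset_inter_right _ (preimage_mono
            (Icc_subset_Icc (by linarith [min_le_right e e']) (by linarith [min_le_right e e']))))
      have hsub : {y | y ∈ A ∧ t y = c0}ᶜ ⊆ ⋃₀ F := by
        intro w hw
        by_cases hwA : w ∈ A
        · have hne : t w ≠ c0 := fun h => hw ⟨hwA, h⟩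
          have hpos : 0 < |t w - c0| := abs_pos.2 (sub_ne_zero.2 hne)
          refine ⟨_, ⟨|t w - c0| / 2, by linarith, rfl⟩, ?_⟩
          rintro ⟨-, h1, h2⟩
          have h3 : |t w - c0| ≤ |t w - c0| / 2 := abs_le.2 ⟨by linarith, by linarith⟩
          linarith
        · refine ⟨_, ⟨1, one_pos, rfl⟩, ?_⟩
          rintro ⟨h1, -⟩
          exact hwA h1
      obtain ⟨U, hU, z', hz'⟩ := (hC (ZMod 2) Y F hFo hFn hFd q).1
        (HH.map (ZMod 2) q (incS hsub) z)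
      have hU' := hU
      obtain ⟨e, he, hUe⟩ := hU'
      subst hUe
      refine ⟨e, he, z', ?_⟩
      rw [← map_incS (subset_sUnion_of_mem hU) q z', hz', map_incS, hz]
  obtain ⟨z, hz⟩ := key
  have hsub : (A ∩ t ⁻¹' (Icc a b))ᶜ ⊆ Aᶜ := compl_subset_compl.2 fun y hy => ⟨hy, hbd y hy⟩
  exact ⟨HH.map (ZMod 2) q (incS hsub) z, by rw [map_incS, hz]⟩

end Pool.Agent.H58.KU
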